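import Pool.Agent.H995.PMI.Pole

set_option autoImplicit false
set_option maxRecDepth 100000

namespace Pool.Agent.H995.PMI

def sl : List ℕ := [
    1, 2, 3, 4, 0, 1, 2, 4, 5, 6, 8, 9, 10, 11, 10, 11, 12, 13, 14, 15, 16, 17, 0, 1, 3, 8, 54,
    9, 19, 20, 21, 22, 18, 19, 20, 22, 23, 24, 26, 27, 28, 29, 28, 29, 30, 31, 32, 33, 34, 35,
    18, 19, 21, 26, 54, 27, 37, 38, 39, 40, 36, 37, 38, 40, 41, 42, 44, 45, 46, 47, 46, 47, 48,
    49, 50, 51, 52, 53, 36, 37, 39, 44, 54, 45]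

def tl : List ℕ := [
    2, 3, 4, 0, 5, 6, 7, 9, 7, 8, 5, 6, 11, 12, 15, 16, 17, 15, 16, 17, 13, 14, 12, 13, 10, 14,
    7, 55, 20, 21, 22, 18, 23, 24, 25, 27, 25, 26, 23, 24, 29, 30, 33, 34, 35, 33, 34, 35, 31,
    32, 30, 31, 28, 32, 25, 55, 38, 39, 40, 36, 41, 42, 43, 45, 43, 44, 41, 42, 47, 48, 51, 52,
    53, 51, 52, 53, 49, 50, 48, 49, 46, 50, 43, 55]

def fl : List ℤ := [
    -5, 2, -5, -2, 2, 2, -7, -3, 4, -4, 2, -6, 2, 6, 5, -4, 2, -3, -2, 2, -6, 4, -4, 3, 7, -6,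
    3, 3, -5, 2, -5, -2, 2, 2, -7, -3, 4, -4, 2, -6, 2, 6, 5, -4, 2, -3, -2, 2, -6, 4, -4, 3,
    7, -6, 3, 3, -5, -7, -5, -2, 2, 2, 2, -3, 4, 5, 2, 3, -7, -3, 5, -4, -7, -3, -2, 2, -6, -5,
    -4, 3, -2, 3, -6, -6]

def il : List ℕ := [
    3, 4, 22, 0, 5, 23, 0, 1, 6, 1, 2, 24, 2, 3, 7, 4, 8, 10, 5, 9, 11, 6, 8, 26, 9, 10, 25, 7,
    11, 27, 12, 14, 24, 12, 13, 15, 13, 16, 22, 17, 20, 23, 18, 21, 25, 14, 17, 19, 15, 18, 20,
    16, 19, 21, 31, 32, 50, 28, 33, 51, 28, 29, 34, 29, 30, 52, 30, 31, 35, 32, 36, 38, 33, 37,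
    39, 34, 36, 54, 37, 38, 53, 35, 39, 55, 40, 42, 52, 40, 41, 43, 41, 44, 50, 45, 48, 51, 46,
    49, 53, 42, 45, 47, 43, 46, 48, 44, 47, 49, 59, 60, 78, 56, 61, 79, 56, 57, 62, 57, 58, 80,
    58, 59, 63, 60, 64, 66, 61, 65, 67, 62, 64, 82, 65, 66, 81, 63, 67, 83, 68, 70, 80, 68, 69,
    71, 69, 72, 78, 73, 76, 79, 74, 77, 81, 70, 73, 75, 71, 74, 76, 72, 75, 77, 26, 54, 82, 27,
    55, 83]

/-- the graph: first and second end of each edge -/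
def s (e : Fin 84) : Fin 56 := Fin.ofNat 56 (sl.getD e.1 0)
def t (e : Fin 84) : Fin 56 := Fin.ofNat 56 (tl.getD e.1 0)

/-- twice the flow value -/
def fz (e : Fin 84) : ℤ := fl.getD e.1 0

/-- the three edges at a vertex -/
def inc (v : Fin 56) (j : Fin 3) : Fin 84 := Fin.ofNat 84 (il.getD (3 * v.1 + j.1) 0)

/-- the edges of the three copies of the multipole -/
def emb (j : Fin 3) (e : ℕ) : Fin 84 := Fin.ofNat 84 (28 * j.1 + e)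

theorem loopless : ∀ e, s e ≠ t e := by decide +kernel

theorem simple : ∀ e f, (s e = s f ∧ t e = t f) ∨ (s e = t f ∧ t e = s f) → e = f := by
  decide +kernel

theorem cubic : ∀ v : Fin 56, (Finset.univ.filter (fun e => s e = v)).card
    + (Finset.univ.filter (fun e => t e = v)).card = 3 := by decide +kernel

theorem fz_bound : ∀ e, 2 ≤ |fz e| ∧ |fz e| ≤ 7 := by decide +kernel

theorem fz_flow : ∀ v : Fin 56, ∑ e ∈ Finset.univ.filter (fun e => s e = v), fz e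
    = ∑ e ∈ Finset.univ.filter (fun e => t e = v), fz e := by decide +kernel

theorem inc_iff : ∀ (v : Fin 56) (e : Fin 84), (s e = v ∨ t e = v) ↔ ∃ j, inc v j = e := by
  decide +kernel

theorem inc_inj : ∀ (v : Fin 56) (j j' : Fin 3), inc v j = inc v j' → j = j' := by
  decide +kernel

theorem inc_a : ∀ j : Fin 3, inc 54 j = emb j 26 := by decide +kernel

theorem tri_emb : ∀ (j : Fin 3), ∀ tr ∈ tri, ∃ v : Fin 56, ∃ j0 j1 j2 : Fin 3,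
    (j0 ≠ j1 ∧ j0 ≠ j2 ∧ j1 ≠ j2) ∧ inc v j0 = emb j tr.1 ∧ inc v j1 = emb j tr.2.1 ∧
      inc v j2 = emb j tr.2.2 := by decide +kernel

end Pool.Agent.H995.PMI
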