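import Pool.Agent.H995.PMI.Graph

set_option autoImplicit false
set_option maxRecDepth 100000

namespace Pool.Agent.H995.PMI

/-- the label of an edge which is in the matchings `i` with `c i = j` -/
def mask (c : Fin 4 → Fin 3) (j : Fin 3) : ℕ :=
  (if c 0 = j then 1 else 0) + (if c 1 = j then 2 else 0) + (if c 2 = j then 4 else 0)
    + (if c 3 = j then 8 else 0)

theorem mask_opts : ∀ c : Fin 4 → Fin 3, (∀ j, ∃ i, c i = j) → ∀ j0 j1 j2 : Fin 3,
    (j0 ≠ j1 ∧ j0 ≠ j2 ∧ j1 ≠ j2) → (mask c j1, mask c j2) ∈ opts (mask c j0) := by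
  decide +kernel

theorem mask_three : ∀ c : Fin 4 → Fin 3, (∀ j, ∃ i, c i = j) → ∀ j : Fin 3, c 0 = j → c 1 = j →
    mask c j = 3 := by
  decide +kernel

theorem pigeon : ∀ c : Fin 4 → Fin 3, ∃ i i' : Fin 4, i ≠ i' ∧ c i = c i' := by
  decide +kernel

theorem perm_exists : ∀ i i' : Fin 4, i ≠ i' → ∃ σ : Equiv.Perm (Fin 4), σ 0 = i ∧ σ 1 = i' := by
  decide +kernel

/-- the label of an edge -/
def lab (M : Fin 4 → Finset (Fin 84)) (e : Fin 84) : ℕ :=
  (if e ∈ M 0 then 1 else 0) + (if e ∈ M 1 then 2 else 0) + (if e ∈ M 2 then 4 else 0)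
    + (if e ∈ M 3 then 8 else 0)

theorem lab_lt (M : Fin 4 → Finset (Fin 84)) (e : Fin 84) : lab M e < 16 := by
  unfold lab
  split_ifs <;> norm_num

/-- four perfect matchings covering all edges -/
def IsCover (M : Fin 4 → Finset (Fin 84)) : Prop :=
  (∀ (i : Fin 4) (v : Fin 56), ((M i).filter (fun e => s e = v ∨ t e = v)).card = 1) ∧
    ∀ e, ∃ i, e ∈ M i

theorem exists_c {M : Fin 4 → Finset (Fin 84)} (h : IsCover M) :
    ∃ c : Fin 56 → Fin 4 → Fin 3, ∀ v i j, inc v j ∈ M i ↔ c v i = j := by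
  have key : ∀ v i, ∃ j0 : Fin 3, ∀ j, inc v j ∈ M i ↔ j0 = j := by
    intro v i
    obtain ⟨e0, he0⟩ := Finset.card_eq_one.mp (h.1 i v)
    have h0 : e0 ∈ (M i).filter (fun e => s e = v ∨ t e = v) := by rw [he0]; simp
    rw [Finset.mem_filter] at h0
    obtain ⟨j0, hj0⟩ := (inc_iff v e0).mp h0.2
    refine ⟨j0, fun j => ⟨fun hj => ?_, fun hj => ?_⟩⟩
    · have h1 : inc v j ∈ (M i).filter (fun e => s e = v ∨ t e = v) := by
        rw [Finset.mem_filter]
        exact ⟨hj, (inc_iff v _).mpr ⟨j, rfl⟩⟩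
      rw [he0, Finset.mem_singleton] at h1
      exact inc_inj v j0 j (by rw [hj0, h1])
    · rw [← hj, hj0]
      exact h0.1
  choose c hc using key
  exact ⟨c, fun v i j => hc v i j⟩

theorem core {M : Fin 4 → Finset (Fin 84)} (h : IsCover M) (j : Fin 3) (h0 : emb j 26 ∈ M 0)
    (h1 : emb j 26 ∈ M 1) : False := by
  obtain ⟨c, hc⟩ := exists_c h
  have hsurj : ∀ v, ∀ j, ∃ i, c v i = j := by
    intro v j
    obtain ⟨i, hi⟩ := h.2 (inc v j)
    exact ⟨i, (hc v i j).mp hi⟩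
  have hlab : ∀ v j, lab M (inc v j) = mask (c v) j := by
    intro v j
    unfold lab mask
    simp only [hc]
  have h3 : lab M (emb j 26) = 3 := by
    rw [← inc_a j, hlab]
    rw [← inc_a j] at h0 h1
    exact mask_three (c 54) (hsurj 54) j ((hc _ _ _).mp h0) ((hc _ _ _).mp h1)
  let L : ℕ → ℕ := fun e => lab M (emb j e)
  have hL : ∀ e, L e < 16 := fun e => lab_lt M _
  have hinv : Inv (setL 0 26 3) L := by
    have h4 := (inv_zero L).set 26 (hL 26)
    have h5 : L 26 = 3 := h3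
    rw [h5] at h4
    exact h4
  have htri : ∀ tr ∈ tri, (L tr.2.1, L tr.2.2) ∈ opts (L tr.1) := by
    intro tr htr
    obtain ⟨v, j0, j1, j2, hne, e0, e1, e2⟩ := tri_emb j tr htr
    have := mask_opts (c v) (hsurj v) j0 j1 j2 hne
    rw [← hlab, ← hlab, ← hlab, e0, e1, e2] at this
    exact this
  have h6 := search_sound L hL tri _ hinv htri
  rw [search_tri] at h6
  exact Bool.noConfusion h6

theorem no_cover (M : Fin 4 → Finset (Fin 84)) : ¬ IsCover M := by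
  intro h
  obtain ⟨c, hc⟩ := exists_c h
  obtain ⟨i, i', hne, hii⟩ := pigeon (c 54)
  obtain ⟨σ, h0, h1⟩ := perm_exists i i' hne
  have hM : IsCover (fun k => M (σ k)) := by
    refine ⟨fun k v => h.1 (σ k) v, fun e => ?_⟩
    obtain ⟨k, hk⟩ := h.2 e
    exact ⟨σ.symm k, by simpa using hk⟩
  refine core hM (c 54 i) ?_ ?_
  · rw [← inc_a]
    show inc 54 (c 54 i) ∈ M (σ 0)
    rw [h0]
    exact (hc _ _ _).mpr rfl
  · rw [← inc_a]
    show inc 54 (c 54 i) ∈ M (σ 1)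
    rw [h1]
    exact (hc _ _ _).mpr hii.symm

theorem flow : ∃ f : Fin 84 → ℝ, (∀ e, 1 ≤ |f e| ∧ |f e| ≤ 9 / 2 - 1) ∧
    ∀ v : Fin 56, ∑ e ∈ Finset.univ.filter (fun e => s e = v), f e
      = ∑ e ∈ Finset.univ.filter (fun e => t e = v), f e := by
  refine ⟨fun e => (fz e : ℝ) / 2, fun e => ?_, fun v => ?_⟩
  · obtain ⟨h1, h2⟩ := fz_bound e
    have h3 : |(fz e : ℝ) / 2| = ((|fz e| : ℤ) : ℝ) / 2 := by
      rw [abs_div, Int.cast_abs]
      norm_num
    have h4 : (2 : ℝ) ≤ ((|fz e| : ℤ) : ℝ) := by exact_mod_cast h1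
    have h5 : ((|fz e| : ℤ) : ℝ) ≤ 7 := by exact_mod_cast h2
    rw [h3]
    constructor <;> linarith
  · rw [← Finset.sum_div, ← Finset.sum_div]
    congr 1
    exact_mod_cast fz_flow v

end Pool.Agent.H995.PMI
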