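import Pool.Agent.H995.PMI.Search

set_option autoImplicit false
set_option maxRecDepth 100000

namespace Pool.Agent.H995.PMI

/-- the vertices of the multipole, each given by its three edges; the edges 26 and 27 are the two
dangling edges -/
def tri : List (ℕ × ℕ × ℕ) :=
  [(26, 6, 8), (8, 4, 10), (10, 9, 25), (4, 3, 22), (22, 13, 16), (16, 19, 21), (21, 25, 18), (18, 15, 20), (13, 15, 12), (19, 14, 17), (12, 14, 24), (17, 20, 23), (6, 0, 1), (1, 24, 2), (2, 3, 7), (0, 23, 5), (5, 9, 11), (7, 11, 27)]

/-- In the multipole the dangling edge 26 is never in exactly the two matchings 0 and 1. -/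
theorem search_tri : search tri (setL 0 26 3) = false := by decide +kernel

end Pool.Agent.H995.PMI
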