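import Mathlib

/-!
# A certified search for covers by four perfect matchings

A label of an edge is a 4-bit mask: the set of the matchings containing it. At a vertex of a cubic
graph the three labels are a partition of `{0,1,2,3}` into nonempty sets. `search` tries all
labellings of a multipole vertex by vertex.
-/

set_option autoImplicit false

namespace Pool.Agent.H995.PMI

/-- the label of the edge `e` in the partial labelling `a` (0: not yet labelled) -/
def getL (a e : ℕ) : ℕ := (a >>> (4 * e)) &&& 15

/-- give the label `x` to the edge `e` -/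
def setL (a e x : ℕ) : ℕ := a ||| (x <<< (4 * e))

lemma testBit15 (i : ℕ) : Nat.testBit 15 i = decide (i < 4) := by
  have h := Nat.testBit_two_pow_sub_one 4 i
  simpa using h

lemma testBit_small {x i : ℕ} (hx : x < 16) (hi : 4 ≤ i) : x.testBit i = false := by
  apply Nat.testBit_lt_two_pow
  calc x < 2 ^ 4 := by simpa using hx
    _ ≤ 2 ^ i := Nat.pow_le_pow_right (by norm_num) hi

lemma getL_shift {x : ℕ} (e f : ℕ) (hx : x < 16) :
    getL (x <<< (4 * e)) f = if e = f then x else 0 := by
  apply Nat.eq_of_testBit_eq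
  intro i
  unfold getL
  rw [Nat.testBit_and, Nat.testBit_shiftRight, Nat.testBit_shiftLeft, testBit15]
  by_cases hi : i < 4
  · split_ifs with h
    · subst h
      simp [hi]
    · rcases Nat.lt_or_gt_of_ne h with h | h
      · have h2 : x.testBit (4 * f + i - 4 * e) = false := testBit_small hx (by omega)
        simp [h2]
      · have h1 : ¬ (4 * e ≤ 4 * f + i) := by omega
        simp [h1]
  · have h2 : x.testBit i = false := testBit_small hx (by omega)
    split_ifs <;> simp [hi, h2]

lemma getL_or (a b f : ℕ) : getL (a ||| b) f = getL a f ||| getL b f := by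
  apply Nat.eq_of_testBit_eq
  intro i
  unfold getL
  simp only [Nat.testBit_and, Nat.testBit_shiftRight, Nat.testBit_or]
  cases a.testBit (4 * f + i) <;> cases b.testBit (4 * f + i) <;> cases Nat.testBit 15 i <;> rfl

/-- the partial labelling `a` agrees with `L` where it is defined -/
def Inv (a : ℕ) (L : ℕ → ℕ) : Prop := ∀ e, getL a e = 0 ∨ getL a e = L e

lemma inv_zero (L : ℕ → ℕ) : Inv 0 L := by
  intro e
  left
  simp [getL]

lemma Inv.set {a : ℕ} {L : ℕ → ℕ} (h : Inv a L) (e : ℕ) (hx : L e < 16) :
    Inv (setL a e (L e)) L := by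
  intro f
  unfold setL
  rw [getL_or, getL_shift e f hx]
  split_ifs with hef
  · subst hef
    right
    rcases h e with h | h <;> rw [h] <;> simp
  · simpa using h f

/-- the pairs of labels at the two other edges of a vertex -/
def opts : ℕ → List (ℕ × ℕ)
  | 1 => [(2, 12), (12, 2), (4, 10), (10, 4), (8, 6), (6, 8)]
  | 2 => [(1, 12), (12, 1), (4, 9), (9, 4), (8, 5), (5, 8)]
  | 4 => [(1, 10), (10, 1), (2, 9), (9, 2), (8, 3), (3, 8)]
  | 8 => [(1, 6), (6, 1), (2, 5), (5, 2), (4, 3), (3, 4)]
  | 3 => [(4, 8), (8, 4)]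
  | 5 => [(2, 8), (8, 2)]
  | 9 => [(2, 4), (4, 2)]
  | 6 => [(1, 8), (8, 1)]
  | 10 => [(1, 4), (4, 1)]
  | 12 => [(1, 2), (2, 1)]
  | _ => []

/-- `false` only if the partial labelling has no extension satisfying the vertex conditions -/
def search : List (ℕ × ℕ × ℕ) → ℕ → Bool
  | [], _ => true
  | (e1, e2, e3) :: vs, a => getL a e1 == 0 ||
      (opts (getL a e1)).any fun p =>
        (getL a e2 == 0 || getL a e2 == p.1) && ((getL a e3 == 0 || getL a e3 == p.2) &&
          search vs (setL (setL a e2 p.1) e3 p.2))

theorem search_sound (L : ℕ → ℕ) (hL : ∀ e, L e < 16) (vs : List (ℕ × ℕ × ℕ)) :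
    ∀ a : ℕ, Inv a L → (∀ tr ∈ vs, (L tr.2.1, L tr.2.2) ∈ opts (L tr.1)) →
      search vs a = true := by
  induction vs with
  | nil => intro a _ _; rfl
  | cons tr vs ih =>
    obtain ⟨e1, e2, e3⟩ := tr
    intro a ha h
    rw [search]
    rcases ha e1 with h1 | h1
    · simp [h1]
    · have h2 := h (e1, e2, e3) (by simp)
      simp only at h2
      rw [Bool.or_eq_true]
      right
      rw [List.any_eq_true]
      refine ⟨(L e2, L e3), by rw [h1]; exact h2, ?_⟩
      have h3 : (getL a e2 == 0 || getL a e2 == L e2) = true := by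
        rcases ha e2 with h | h <;> simp [h]
      have h4 : (getL a e3 == 0 || getL a e3 == L e3) = true := by
        rcases ha e3 with h | h <;> simp [h]
      have h5 := ih (setL (setL a e2 (L e2)) e3 (L e3)) ((ha.set e2 (hL e2)).set e3 (hL e3))
        (fun tr htr => h tr (by simp [htr]))
      simp only [h3, h4, h5, Bool.and_self]

end Pool.Agent.H995.PMI
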